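import Pool.Agent.Results.MP_f76cdc_ag.DivisibilityFails
import Pool.Agent.Y511.LD.Final
import Pool.Agent.Y511.LD.Arith

/-!
# Spaces of logarithmic differentials with one zero at infinity in every dimension

The definitions are those of `DivisibilityFails.lean` (`IsSpaceL p k m n V`: `V` is a space
`L_{m+1,n}`).

Spaces `L_{m+1,n}` exist for every prime `p`, every `n ≥ 2` and EVERY `m` such that `p ^ n` divides
`m + 1` and `m + 1 ≥ p ^ (2n-1) (p-1) ^ 2`.  In particular, for odd `p`, the number `p - 1` need not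
divide `m + 1`, whatever the dimension `n ≥ 2` is.

The construction.  Let `a` be an injective linear map from `F_p ^ n` to `k` and `u_x = a(x) z ^ d +
a(x) ^ p`; the polynomials `u_x`, `u_y` are coprime unless `x`, `y` are proportional.  Let `Δ` be the
product of the `u_x` over representatives of the points of the projective space.  The sums
`w_c = Δ ∑ c(x) / u_x` (over the same representatives) form an `n`-dimensional space, and `w_c` is a
constant times the `p`-th power of the product of the `u_x` with `c(x) = 0`.  By the Chinese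
remainder theorem there is a polynomial `V` of degree `p ((p^n-1)/(p-1) d + r)` with derivative
`Δ ^ p` such that `u_x ^ p` divides `V - w_c` whenever `c(x) = 1`.  The logarithmic forms are the sums
of the `c(x) dlog (V - w_c)` over all `c`.
-/

set_option autoImplicit false

namespace Pool.Agent.Results.MP_f76cdc_ag.AllDimensions

open Pool.Agent.Results.MP_f76cdc_ag.DivisibilityFails

lemma exists_space (p : ℕ) [Fact p.Prime] (k : Type*) [Field k] [IsAlgClosed k]
    [Algebra (ZMod p) k] (n d r : ℕ) (hd : 1 ≤ d) (hr : 1 ≤ r) (m : ℕ)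
    (hm : m + 1 + p ^ (n + 2) * d = p ^ (n + 2) * ((p - 1) * (d * p ^ (n + 1) + r))) :
    ∃ V : Submodule (ZMod p) (Ω[RatFunc k⁄k]), IsSpaceL p k m (n + 2) V := by
  obtain ⟨F, hF1, hF2⟩ := Y511.LD.construction p k n d r hd hr
  refine ⟨LinearMap.range F, ?_, ?_, ?_⟩
  · rw [LinearMap.finrank_range_of_inj]
    · simp
    · rw [← LinearMap.ker_eq_bot, LinearMap.ker_eq_bot']
      intro x h0
      by_contra hx
      obtain ⟨P, hP0, -, hP⟩ := hF2 x hx
      rw [h0] at hP
      rcases smul_eq_zero.1 hP.symm with h1 | h1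
      · rw [inv_eq_zero, FaithfulSMul.algebraMap_eq_zero_iff] at h1
        exact hP0 h1
      · exact W515.LD.dX_ne_zero h1
  · rintro ω ⟨x, rfl⟩ -
    obtain ⟨f, hf, hf2⟩ := hF1 x
    exact ⟨f, hf, hf2⟩
  · rintro ω ⟨x, rfl⟩ h0
    have hx : x ≠ 0 := by
      rintro rfl
      exact h0 (map_zero _)
    obtain ⟨P, hP0, hP, hP2⟩ := hF2 x hx
    refine ⟨(algebraMap (Polynomial k) (RatFunc k) P)⁻¹, ?_, hP2, fun a => ordAt_inv a P hP0, ?_⟩
    · rw [ne_eq, inv_eq_zero, FaithfulSMul.algebraMap_eq_zero_iff]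
      exact hP0
    · rw [ordInfty, RatFunc.intDegree_inv, RatFunc.intDegree_polynomial]
      have : P.natDegree = m + 1 := by omega
      rw [this]
      push_cast
      ring

/-- Let `p` be a prime, `k` an algebraically closed field of characteristic `p` (that is, with a
structure of algebra over the field with `p` elements) and `n ≥ 2`.

* For all `d, r ≥ 1` a space `L_{m+1,n}` exists for
  `m + 1 = p ^ n ((p - 1) (d p ^ (n - 1) + r) - d)`.
* A space `L_{m+1,n}` exists for every `m` such that `p ^ n` divides `m + 1` and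
  `m + 1 ≥ p ^ (2 n - 1) (p - 1) ^ 2`.
* If `p` is odd there are arbitrarily large `m` such that a space `L_{m+1,n}` exists and `m + 1` is
  prime to `p - 1`, so that `p ^ (n - 1) (p - 1)` does not divide `m + 1`. -/
theorem result (p : ℕ) [Fact p.Prime] (k : Type*) [Field k] [IsAlgClosed k]
    [Algebra (ZMod p) k] (n : ℕ) (hn : 2 ≤ n) :
    (∀ d r m : ℕ, 1 ≤ d → 1 ≤ r →
      m + 1 = p ^ n * ((p - 1) * (d * p ^ (n - 1) + r) - d) →
      ∃ V : Submodule (ZMod p) (Ω[RatFunc k⁄k]), IsSpaceL p k m n V) ∧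
    (∀ m : ℕ, p ^ n ∣ m + 1 → p ^ (2 * n - 1) * (p - 1) ^ 2 ≤ m + 1 →
      ∃ V : Submodule (ZMod p) (Ω[RatFunc k⁄k]), IsSpaceL p k m n V) ∧
    (p ≠ 2 → ∀ M : ℕ, ∃ m : ℕ, M ≤ m ∧
      (∃ V : Submodule (ZMod p) (Ω[RatFunc k⁄k]), IsSpaceL p k m n V) ∧
      Nat.Coprime (m + 1) (p - 1) ∧ ¬ p ^ (n - 1) * (p - 1) ∣ m + 1) := by
  have hp2 := (Fact.out : p.Prime).two_le
  obtain ⟨n, rfl⟩ : ∃ s, n = s + 2 := ⟨n - 2, by omega⟩
  rw [show n + 2 - 1 = n + 1 by omega, show 2 * (n + 2) - 1 = (n + 2) + (n + 1) by omega]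
  have hpos : 0 < p ^ (n + 2) := by positivity
  have h2 : ∀ m : ℕ, p ^ (n + 2) ∣ m + 1 → p ^ ((n + 2) + (n + 1)) * (p - 1) ^ 2 ≤ m + 1 →
      ∃ V : Submodule (ZMod p) (Ω[RatFunc k⁄k]), IsSpaceL p k m (n + 2) V := by
    rintro m ⟨N, hN⟩ hm
    have h3 : (p - 1) ^ 2 * p ^ (n + 1) ≤ N := by
      rw [hN, pow_add, mul_assoc] at hm
      have := Nat.le_of_mul_le_mul_left hm hpos
      linarith [mul_comm ((p - 1) ^ 2) (p ^ (n + 1))]
    obtain ⟨d, r, hd, hr, hdr⟩ := Y511.LD.rep_large p n N hp2 h3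
    apply exists_space p k n d r hd hr m
    rw [hN, ← mul_add, hdr]
  refine ⟨?_, h2, ?_⟩
  · intro d r m hd hr hm
    apply exists_space p k n d r hd hr m
    rw [hm, ← mul_add]
    congr 1
    apply Nat.sub_add_cancel
    have h3 : 1 ≤ p ^ (n + 1) := Nat.one_le_pow _ _ (by omega)
    have h4 : 1 ≤ p - 1 := by omega
    calc d = 1 * (d * 1) := by ring
      _ ≤ (p - 1) * (d * p ^ (n + 1) + r) := by
        apply Nat.mul_le_mul h4
        exact le_trans (Nat.mul_le_mul_left _ h3) (Nat.le_add_right _ _)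
  · intro hp M
    obtain ⟨q, rfl⟩ : ∃ q, p = q + 1 := ⟨p - 1, by omega⟩
    have hq : 2 ≤ q := by omega
    rw [Nat.add_sub_cancel] at h2 ⊢
    set B := (q + 1) ^ ((n + 2) + (n + 1)) * q ^ 2 with hB
    have hpq : 1 ≤ (q + 1) ^ (n + 2) := Nat.one_le_pow _ _ (by omega)
    -- `m + 1 = p ^ n (q t + 1)` with `t` large
    obtain ⟨m, hm⟩ : ∃ m, m + 1 = (q + 1) ^ (n + 2) * (q * (B + M + 1) + 1) := by
      refine ⟨(q + 1) ^ (n + 2) * (q * (B + M + 1) + 1) - 1, ?_⟩
      have : 0 < (q + 1) ^ (n + 2) * (q * (B + M + 1) + 1) := by positivity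
      omega
    have hle : B + M + 1 ≤ m := by
      have h3 : q * (B + M + 1) + 1 ≤ m + 1 := by
        rw [hm]
        exact Nat.le_mul_of_pos_left _ (by omega)
      nlinarith
    have hcop : Nat.Coprime (m + 1) q := by
      rw [hm]
      apply Nat.Coprime.mul_left
      · apply Nat.Coprime.pow_left
        simp
      · simp
    refine ⟨m, by omega, h2 m ⟨_, hm⟩ (by omega), hcop, ?_⟩
    intro h
    have h3 : q ∣ m + 1 := (dvd_mul_left _ _).trans h
    have h4 : q = 1 := Nat.Coprime.eq_one_of_dvd hcop.symm h3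
    omega

end Pool.Agent.Results.MP_f76cdc_ag.AllDimensions
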